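import Pool.Agent.Y817.ISO.Stm

/-!
# A metabelian-type model group (project ISO, job GMODEL)
-/

set_option autoImplicit false

namespace Pool.Agent.Y614.ISO

open Pool.Agent.Y817.ISO

/-- The model group: functions on the cosets of `Q`, extended by `K × ℤ`. -/
@[ext] structure GM (K : Type) [Group K] (Q : Subgroup K) where
  f : K ⧸ Q → ℚ
  k : K
  e : ℤ

namespace GM

variable {K : Type} [Group K] {Q : Subgroup K}

instance : Mul (GM K Q) :=
  ⟨fun a b => ⟨fun ξ => a.f ξ + 2 ^ (-a.e) * b.f (a.k⁻¹ • ξ), a.k * b.k, a.e + b.e⟩⟩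

instance : One (GM K Q) := ⟨⟨fun _ => 0, 1, 0⟩⟩

instance : Inv (GM K Q) :=
  ⟨fun a => ⟨fun ξ => - (2 ^ a.e * a.f (a.k • ξ)), a.k⁻¹, -a.e⟩⟩

@[simp] theorem mul_f (a b : GM K Q) (ξ : K ⧸ Q) :
    (a * b).f ξ = a.f ξ + 2 ^ (-a.e) * b.f (a.k⁻¹ • ξ) := rfl
@[simp] theorem mul_k (a b : GM K Q) : (a * b).k = a.k * b.k := rfl
@[simp] theorem mul_e (a b : GM K Q) : (a * b).e = a.e + b.e := rfl
@[simp] theorem one_f (ξ : K ⧸ Q) : (1 : GM K Q).f ξ = 0 := rfl
@[simp] theorem one_k : (1 : GM K Q).k = 1 := rfl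
@[simp] theorem one_e : (1 : GM K Q).e = 0 := rfl
@[simp] theorem inv_f (a : GM K Q) (ξ : K ⧸ Q) : (a⁻¹).f ξ = - (2 ^ a.e * a.f (a.k • ξ)) := rfl
@[simp] theorem inv_k (a : GM K Q) : (a⁻¹).k = a.k⁻¹ := rfl
@[simp] theorem inv_e (a : GM K Q) : (a⁻¹).e = -a.e := rfl

theorem ext' {a b : GM K Q} (h1 : ∀ ξ, a.f ξ = b.f ξ) (h2 : a.k = b.k) (h3 : a.e = b.e) :
    a = b := GM.ext (funext h1) h2 h3

instance : Group (GM K Q) where
  mul_assoc a b c := by
    apply ext'
    · intro ξ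
      simp only [mul_f, mul_k, mul_e, mul_inv_rev, mul_smul, neg_add]
      rw [zpow_add₀ (two_ne_zero)]
      ring
    · simp [mul_assoc]
    · simp [add_assoc]
  one_mul a := by
    apply ext'
    · intro ξ; simp
    · simp
    · simp
  mul_one a := by
    apply ext'
    · intro ξ; simp
    · simp
    · simp
  inv_mul_cancel a := by
    apply ext'
    · intro ξ; simp
    · simp
    · simp

/-- The embedding of `K`. -/
def φ (K : Type) [Group K] (Q : Subgroup K) : K →* GM K Q where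
  toFun k := ⟨fun _ => 0, k, 0⟩
  map_one' := rfl
  map_mul' a b := by
    apply ext'
    · intro ξ; simp
    · simp
    · simp

@[simp] theorem φ_f (k : K) (ξ : K ⧸ Q) : (φ K Q k).f ξ = 0 := rfl
@[simp] theorem φ_k (k : K) : (φ K Q k).k = k := rfl
@[simp] theorem φ_e (k : K) : (φ K Q k).e = 0 := rfl

open Classical in
/-- The element `z`. -/
noncomputable def z (K : Type) [Group K] (Q : Subgroup K) : GM K Q :=
  ⟨fun ξ => if ξ = ((1 : K) : K ⧸ Q) then 1 else 0, 1, 0⟩

open Classical in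
theorem z_f (ξ : K ⧸ Q) : (z K Q).f ξ = if ξ = ((1 : K) : K ⧸ Q) then 1 else 0 := rfl
@[simp] theorem z_k : (z K Q).k = 1 := rfl
@[simp] theorem z_e : (z K Q).e = 0 := rfl

/-- The element `u`. -/
def u (K : Type) [Group K] (Q : Subgroup K) : GM K Q := ⟨fun _ => 0, 1, 1⟩

@[simp] theorem u_f (ξ : K ⧸ Q) : (u K Q).f ξ = 0 := rfl
@[simp] theorem u_k : (u K Q).k = 1 := rfl
@[simp] theorem u_e : (u K Q).e = 1 := rfl

/-- Conjugation of an element of the module by an element of `K`. -/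
theorem conj_φ (k : K) (a : GM K Q) (hk : a.k = 1) (he : a.e = 0) :
    ((φ K Q k)⁻¹ * a * φ K Q k).k = 1 ∧ ((φ K Q k)⁻¹ * a * φ K Q k).e = 0 ∧
    ∀ ξ, ((φ K Q k)⁻¹ * a * φ K Q k).f ξ = a.f (k • ξ) := by
  refine ⟨by simp [hk], by simp [he], fun ξ => ?_⟩
  simp [hk, he]

/-- Integer powers of an element of the module. -/
theorem zpow_mod (a : GM K Q) (hk : a.k = 1) (he : a.e = 0) (n : ℤ) :
    (a ^ n).k = 1 ∧ (a ^ n).e = 0 ∧ ∀ ξ, (a ^ n).f ξ = n * a.f ξ := by
  induction n using Int.induction_on with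
  | zero => simp
  | succ n ih =>
    obtain ⟨h1, h2, h3⟩ := ih
    rw [zpow_add_one]
    refine ⟨by rw [mul_k, h1, hk, mul_one], by rw [mul_e, h2, he, add_zero], fun ξ => ?_⟩
    rw [mul_f, h1, h2, h3, neg_zero, zpow_zero, one_mul, inv_one, one_smul]
    push_cast
    ring
  | pred n ih =>
    obtain ⟨h1, h2, h3⟩ := ih
    rw [zpow_sub_one]
    refine ⟨by rw [mul_k, h1, inv_k, hk, inv_one, mul_one],
      by rw [mul_e, h2, inv_e, he, neg_zero, add_zero], fun ξ => ?_⟩
    rw [mul_f, h1, h2, h3, neg_zero, zpow_zero, one_mul, inv_one, one_smul, inv_f, he, hk,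
      zpow_zero, one_mul, one_smul]
    push_cast
    ring

end GM

open GM

/-- The subgroup of values at `ξ` for the intersection. -/
def E0 {K : Type} [Group K] (Q : Subgroup K) (x t : K) (ξ : K ⧸ Q) : AddSubgroup ℚ :=
  AddSubgroup.closure {r : ℚ | ∃ m : ℤ, ξ = ((x ^ (-m) * t⁻¹ : K) : K ⧸ Q) ∧ r = 2 ^ (m + 1)}

/-- The subgroup of values at `ξ`. -/
def E1 {K : Type} [Group K] (Q Rr : Subgroup K) (x t : K) (ξ : K ⧸ Q) : AddSubgroup ℚ :=
  AddSubgroup.closure {r : ℚ | ∃ m : ℤ, (∃ ρ ∈ Rr, ξ = ((ρ * (s x t m)⁻¹ : K) : K ⧸ Q)) ∧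
    r = 2 ^ (m + 1)}

theorem E0_smul {K : Type} [Group K] (Q : Subgroup K) (x t : K) (ξ : K ⧸ Q) (e : ℤ) (r : ℚ)
    (hr : r ∈ E0 Q x t ((x ^ e)⁻¹ • ξ)) : 2 ^ (-e) * r ∈ E0 Q x t ξ := by
  unfold E0 at hr
  induction hr using AddSubgroup.closure_induction with
  | mem r hr =>
    obtain ⟨m, h1, rfl⟩ := hr
    apply AddSubgroup.subset_closure
    refine ⟨m - e, ?_, ?_⟩
    · rw [inv_smul_eq_iff] at h1
      rw [h1]
      change (((x ^ e) * (x ^ (-m) * t⁻¹) : K) : K ⧸ Q) = _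
      rw [← mul_assoc, ← zpow_add]
      congr 3
      ring
    · rw [← zpow_add₀ (two_ne_zero)]
      congr 1
      ring
  | zero => simp
  | add a b _ _ ha hb => rw [mul_add]; exact add_mem ha hb
  | neg a _ ha => rw [mul_neg]; exact neg_mem ha

theorem E1_smul {K : Type} [Group K] (Q Rr : Subgroup K) (x t : K) (ξ : K ⧸ Q) (ρ : K)
    (hρ : ρ ∈ Rr) (r : ℚ) (hr : r ∈ E1 Q Rr x t (ρ⁻¹ • ξ)) : r ∈ E1 Q Rr x t ξ := by
  unfold E1 at hr
  induction hr using AddSubgroup.closure_induction with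
  | mem r hr =>
    obtain ⟨m, ⟨ρ', hρ', h1⟩, rfl⟩ := hr
    apply AddSubgroup.subset_closure
    refine ⟨m, ⟨ρ * ρ', mul_mem hρ hρ', ?_⟩, rfl⟩
    rw [inv_smul_eq_iff] at h1
    rw [h1]
    change ((ρ * (ρ' * (s x t m)⁻¹) : K) : K ⧸ Q) = _
    rw [mul_assoc]
  | zero => exact zero_mem _
  | add a b _ _ ha hb => exact add_mem ha hb
  | neg a _ ha => exact neg_mem ha

theorem E0_le_E1 {K : Type} [Group K] (Q Rr : Subgroup K) (x t : K) (hx : x ∈ Q) (ξ : K ⧸ Q) :
    E0 Q x t ξ ≤ E1 Q Rr x t ξ := by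
  unfold E0 E1
  apply AddSubgroup.closure_mono
  rintro r ⟨m, h1, h2⟩
  refine ⟨m, ⟨1, one_mem _, ?_⟩, h2⟩
  rw [h1, one_mul]
  rw [QuotientGroup.eq]
  have : (x ^ (-m) * t⁻¹)⁻¹ * (s x t m)⁻¹ = x ^ m := by
    simp [s, mul_assoc]
  rw [this]
  exact zpow_mem hx m

/-- The job. -/
theorem t : StmGModel := by
  intro K _ Q Rr π x t hB
  refine ⟨GM K Q, inferInstance, GM.φ K Q, GM.z K Q, GM.u K Q, ?_, ?_, ?_, ?_⟩
  · intro q hq
    show _ * _ = _ * _
    apply GM.ext'
    · intro ξ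
      simp only [GM.mul_f, GM.z_f, GM.z_e, GM.z_k, GM.φ_f, GM.φ_k, GM.φ_e, neg_zero, zpow_zero,
        one_mul, inv_one, one_smul, add_zero, zero_add]
      congr 1
      rw [inv_smul_eq_iff]
      have : q • ((1 : K) : K ⧸ Q) = ((1 : K) : K ⧸ Q) := by
        change ((q * 1 : K) : K ⧸ Q) = _
        rw [QuotientGroup.eq]
        simpa using hq
      rw [this]
    · simp
    · simp
  · intro k
    show _ * _ = _ * _
    apply GM.ext'
    · intro ξ; simp
    · simp
    · simp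
  · apply GM.ext'
    · intro ξ
      simp [pow_two]
      ring
    · simp [pow_two]
    · simp [pow_two]
  · intro n hn a ha g hg
    -- the elements of the first closure
    have h1 : ∀ y ∈ Subgroup.closure ({GM.φ K Q x * GM.u K Q,
        (GM.φ K Q t)⁻¹ * GM.z K Q ^ 2 * GM.φ K Q t} : Set (GM K Q)),
        y.k = x ^ y.e ∧ ∀ ξ, y.f ξ ∈ E0 Q x t ξ := by
      intro y hy
      induction hy using Subgroup.closure_induction with
      | mem y hy =>
        rcases hy with rfl | hy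
        · refine ⟨by simp, fun ξ => ?_⟩
          simp
        · rw [Set.mem_singleton_iff] at hy
          obtain ⟨h1, h2, h3⟩ := GM.conj_φ t (GM.z K Q ^ 2) (by simp [pow_two]) (by simp [pow_two])
          rw [hy]
          refine ⟨by rw [h1, h2]; simp, fun ξ => ?_⟩
          rw [h3]
          simp only [pow_two, GM.mul_f, GM.z_f, GM.z_e, GM.z_k, neg_zero, zpow_zero, one_mul,
            inv_one, one_smul]
          split_ifs with h
          · apply AddSubgroup.subset_closure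
            refine ⟨0, ?_, by norm_num⟩
            rw [← eq_inv_smul_iff] at h
            rw [h]
            simp
          · simp
      | one => exact ⟨by simp, fun ξ => by simp⟩
      | mul a b _ _ ha hb =>
        refine ⟨by simp [ha.1, hb.1, zpow_add], fun ξ => ?_⟩
        rw [GM.mul_f]
        apply add_mem (ha.2 ξ)
        apply E0_smul
        rw [← ha.1]
        exact hb.2 _
      | inv a _ ha =>
        refine ⟨by simp [ha.1], fun ξ => ?_⟩
        rw [GM.inv_f]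
        apply neg_mem
        have := E0_smul Q x t ξ (-a.e) (a.f (a.k • ξ)) (by
          rw [ha.1]; simpa using ha.2 _)
        simpa using this
    have h2 : ∀ y ∈ Subgroup.closure (Set.range (GM.φ K Q) ∪ {GM.z K Q} : Set (GM K Q)),
        y.e = 0 := by
      intro y hy
      induction hy using Subgroup.closure_induction with
      | mem y hy =>
        rcases hy with ⟨k, rfl⟩ | hy
        · simp
        · rw [Set.mem_singleton_iff] at hy
          rw [hy]; simp
      | one => simp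
      | mul a b _ _ ha hb => simp [ha, hb]
      | inv a _ ha => simp [ha]
    have h3 : ∀ y ∈ Subgroup.closure
        (((Subgroup.closure {GM.φ K Q x * GM.u K Q, (GM.φ K Q t)⁻¹ * GM.z K Q ^ 2 * GM.φ K Q t} ⊓
          Subgroup.closure (Set.range (GM.φ K Q) ∪ {GM.z K Q}) : Subgroup (GM K Q)) :
            Set (GM K Q)) ∪ (GM.φ K Q) '' Rr),
        y.k ∈ Rr ∧ y.e = 0 ∧ ∀ ξ, y.f ξ ∈ E1 Q Rr x t ξ := by
      intro y hy
      induction hy using Subgroup.closure_induction with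
      | mem y hy =>
        rcases hy with hy | ⟨ρ, hρ, rfl⟩
        · have hy1 := h1 y hy.1
          have hy2 := h2 y hy.2
          refine ⟨?_, hy2, fun ξ => E0_le_E1 Q Rr x t hB.x_mem ξ (hy1.2 ξ)⟩
          rw [hy1.1, hy2, zpow_zero]
          exact one_mem _
        · exact ⟨hρ, by simp, fun ξ => by simp⟩
      | one => exact ⟨one_mem _, by simp, fun ξ => by simp⟩
      | mul a b _ _ ha hb =>
        refine ⟨mul_mem ha.1 hb.1, by simp [ha.2.1, hb.2.1], fun ξ => ?_⟩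
        rw [GM.mul_f, ha.2.1]
        apply add_mem (ha.2.2 ξ)
        simp only [neg_zero, zpow_zero, one_mul]
        exact E1_smul Q Rr x t ξ a.k ha.1 _ (hb.2.2 _)
      | inv a _ ha =>
        refine ⟨inv_mem ha.1, by simp [ha.2.1], fun ξ => ?_⟩
        rw [GM.inv_f, ha.2.1]
        apply neg_mem
        simp only [zpow_zero, one_mul]
        apply E1_smul Q Rr x t ξ a.k⁻¹ (inv_mem ha.1)
        rw [inv_inv]
        exact ha.2.2 _
    have h4 := (h3 _ ha).2.2 (((s x t n)⁻¹ : K) : K ⧸ Q)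
    obtain ⟨c1, c2, c3⟩ := GM.conj_φ (s x t n) (GM.z K Q) (by simp) (by simp)
    obtain ⟨-, -, d3⟩ := GM.zpow_mod _ c1 c2 a
    rw [d3, c3, GM.z_f] at h4
    have e1 : (s x t n) • (((s x t n)⁻¹ : K) : K ⧸ Q) = ((1 : K) : K ⧸ Q) := by
      change ((s x t n * (s x t n)⁻¹ : K) : K ⧸ Q) = _
      rw [mul_inv_cancel]
    rw [if_pos e1, mul_one] at h4
    -- all generators are multiples of g
    have hπx : π x = x := hB.fix x hB.x_mem
    have hπs : ∀ m : ℤ, π (s x t m) = 1 := by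
      intro m
      simp [s, hπx, hB.t_one]
    have h5 : E1 Q Rr x t (((s x t n)⁻¹ : K) : K ⧸ Q) ≤ AddSubgroup.zmultiples (g : ℚ) := by
      unfold E1
      rw [AddSubgroup.closure_le]
      rintro r ⟨m, ⟨ρ, hρ, h6⟩, rfl⟩
      rw [QuotientGroup.eq] at h6
      set q := ((s x t n)⁻¹)⁻¹ * (ρ * (s x t m)⁻¹) with hq
      have h7 : π q = q := hB.fix q h6
      have h8 : π q = ρ := by
        rw [hq]
        simp [hπs, hB.fix ρ (hB.le hρ)]
      have h9 : q = ρ := h7.symm.trans h8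
      rw [hq, inv_inv] at h9
      have hC : Conn Rr x t n m := by
        refine ⟨ρ, hρ, ?_⟩
        rw [← mul_assoc, mul_inv_eq_iff_eq_mul, ← eq_mul_inv_iff_mul_eq] at h9
        exact h9
      obtain ⟨c, hc⟩ := hg m hC
      have hm := hn m hC
      rw [SetLike.mem_coe, AddSubgroup.mem_zmultiples_iff]
      refine ⟨c, ?_⟩
      have : ((2 : ℤ) ^ (m.toNat + 1) : ℚ) = 2 ^ (m + 1) := by
        obtain ⟨k, rfl⟩ := Int.eq_ofNat_of_zero_le hm
        simp
        norm_cast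
      rw [← this, zsmul_eq_mul, mul_comm]
      exact_mod_cast hc.symm
    have h6 := h5 h4
    rw [AddSubgroup.mem_zmultiples_iff] at h6
    obtain ⟨c, hc⟩ := h6
    refine ⟨c, ?_⟩
    rw [zsmul_eq_mul, mul_comm] at hc
    exact_mod_cast hc.symm

end Pool.Agent.Y614.ISO
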