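import Pool.Agent.Y817.ISO.Stm

/-!
# Finitely many words for the relations (project ISO, job PRES)
-/

set_option autoImplicit false

namespace Pool.Agent.Y614.ISO.Pres

open Pool.Agent.Y817.ISO Multiplicative

/-! ### Homomorphisms from free abelian groups -/

section Ab

variable {J : Type} [Fintype J] [DecidableEq J]

/-- The product of the powers of a family. -/
noncomputable def pw {H : Type} [Group H] (h : J → H) (b : J → ℤ) : H :=
  ((Finset.univ : Finset J).toList.map fun j => h j ^ b j).prod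

omit [DecidableEq J] in
theorem map_pw {H H' : Type} [Group H] [Group H'] (f : H →* H') (h : J → H) (b : J → ℤ) :
    f (pw h b) = pw (fun j => f (h j)) b := by
  unfold pw
  rw [map_list_prod, List.map_map]
  congr 1
  apply List.map_congr_left
  intro j _
  simp

theorem ofAdd_eq_pw (b : J → ℤ) : (ofAdd b : Multiplicative (J → ℤ)) =
    pw (fun j => (ofAdd (Pi.single j (1 : ℤ)) : Multiplicative (J → ℤ))) b := by
  unfold pw
  rw [Finset.prod_map_toList]
  apply toAdd.injective
  rw [toAdd_prod]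
  funext k
  simp [Finset.sum_apply, Pi.single_apply]

theorem hom_eq_pw {H : Type} [Group H] (X : Multiplicative (J → ℤ) →* H) (b : J → ℤ) :
    X (ofAdd b) = pw (fun j => X (ofAdd (Pi.single j 1))) b := by
  conv_lhs => rw [ofAdd_eq_pw b]
  rw [map_pw]

theorem hom_ext {H : Type} [Group H] (X Y : Multiplicative (J → ℤ) →* H)
    (h : ∀ j, X (ofAdd (Pi.single j 1)) = Y (ofAdd (Pi.single j 1))) : X = Y := by
  apply MonoidHom.ext
  intro b
  obtain ⟨b, rfl⟩ := ofAdd.surjective b
  rw [hom_eq_pw X, hom_eq_pw Y]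
  simp only [h]

theorem exists_hom {H : Type} [Group H] (h : J → H) (hc : ∀ j k, h j * h k = h k * h j) :
    ∃ X : Multiplicative (J → ℤ) →* H, ∀ j, X (ofAdd (Pi.single j 1)) = h j := by
  have hcomm : Pairwise fun i j : J => ∀ x y : Multiplicative ℤ,
      Commute (zpowersHom H (h i) x) (zpowersHom H (h j) y) := by
    intro i j _ x y
    simp only [zpowersHom_apply]
    have : Commute (h i) (h j) := hc i j
    exact this.zpow_zpow _ _
  refine ⟨(MonoidHom.noncommPiCoprod (fun j => zpowersHom H (h j)) hcomm).comp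
    (MulEquiv.piMultiplicative (fun _ : J => ℤ)).toMonoidHom, fun j => ?_⟩
  have e : (MulEquiv.piMultiplicative (fun _ : J => ℤ)) (ofAdd (Pi.single j (1 : ℤ))) =
      Pi.mulSingle j (ofAdd (1 : ℤ)) := by
    funext k
    simp only [MulEquiv.piMultiplicative_apply, toAdd_ofAdd]
    by_cases hk : k = j
    · subst hk; simp
    · simp [hk]
  have := MonoidHom.noncommPiCoprod_mulSingle (fun j => zpowersHom H (h j)) (hcomm := hcomm) j
    (ofAdd (1 : ℤ))
  simp only [MonoidHom.comp_apply, MulEquiv.toMonoidHom_eq_coe, MonoidHom.coe_coe]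
  rw [e, this]
  simp

end Ab

/-! ### Finitely presentable properties -/

section FP

variable {A : Type}

/-- A term in the letters which is given by a word. -/
def Wd (E : ∀ (H : Type) [Group H], (A → H) → H) : Prop :=
  ∃ w : FreeGroup A, ∀ (H : Type) [Group H] (h : A → H), FreeGroup.lift h w = E H h

theorem Wd.var (a : A) : Wd (fun (H : Type) [Group H] (h : A → H) => h a) :=
  ⟨FreeGroup.of a, fun H _ h => by simp⟩

theorem Wd.mul {E F : ∀ (H : Type) [Group H], (A → H) → H} (hE : Wd E) (hF : Wd F) :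
    Wd (fun (H : Type) [Group H] (h : A → H) => E H h * F H h) := by
  obtain ⟨w, hw⟩ := hE
  obtain ⟨v, hv⟩ := hF
  exact ⟨w * v, fun H _ h => by rw [map_mul, hw, hv]⟩

theorem Wd.inv {E : ∀ (H : Type) [Group H], (A → H) → H} (hE : Wd E) :
    Wd (fun (H : Type) [Group H] (h : A → H) => (E H h)⁻¹) := by
  obtain ⟨w, hw⟩ := hE
  exact ⟨w⁻¹, fun H _ h => by rw [map_inv, hw]⟩

theorem Wd.one : Wd (fun (H : Type) [Group H] (_ : A → H) => (1 : H)) :=
  ⟨1, fun H _ h => by rw [map_one]⟩

theorem Wd.pow {E : ∀ (H : Type) [Group H], (A → H) → H} (hE : Wd E) (n : ℕ) :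
    Wd (fun (H : Type) [Group H] (h : A → H) => (E H h) ^ n) := by
  obtain ⟨w, hw⟩ := hE
  exact ⟨w ^ n, fun H _ h => by rw [map_pow, hw]⟩

theorem Wd.pw {J : Type} [Fintype J] (f : J → A) (b : J → ℤ) :
    Wd (fun (H : Type) [Group H] (h : A → H) => pw (fun j => h (f j)) b) :=
  ⟨Pres.pw (fun j => FreeGroup.of (f j)) b, fun H _ h => by
    rw [map_pw]
    simp⟩

/-- A property of families which is given by finitely many relations. -/
def FP (Φ : ∀ (H : Type) [Group H], (A → H) → Prop) : Prop :=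
  ∃ L : List (List (A × Bool)), ∀ (H : Type) [Group H] (h : A → H),
    (∀ w ∈ L, FreeGroup.lift h (FreeGroup.mk w) = 1) ↔ Φ H h

theorem FP.eq {E F : ∀ (H : Type) [Group H], (A → H) → H} (hE : Wd E) (hF : Wd F) :
    FP (fun (H : Type) [Group H] (h : A → H) => E H h = F H h) := by
  classical
  obtain ⟨w, hw⟩ := hE
  obtain ⟨v, hv⟩ := hF
  refine ⟨[(w * v⁻¹).toWord], fun H _ h => ?_⟩
  rw [List.forall_mem_singleton, FreeGroup.mk_toWord, map_mul, map_inv, hw, hv, mul_inv_eq_one]

theorem FP.and {Φ Ψ : ∀ (H : Type) [Group H], (A → H) → Prop} (h1 : FP Φ) (h2 : FP Ψ) :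
    FP (fun (H : Type) [Group H] (h : A → H) => Φ H h ∧ Ψ H h) := by
  obtain ⟨L, hL⟩ := h1
  obtain ⟨M, hM⟩ := h2
  refine ⟨L ++ M, fun H _ h => ?_⟩
  rw [List.forall_mem_append, hL, hM]

theorem FP.all {I : Type} [Finite I] {Φ : I → ∀ (H : Type) [Group H], (A → H) → Prop}
    (h1 : ∀ i, FP (Φ i)) : FP (fun (H : Type) [Group H] (h : A → H) => ∀ i, Φ i H h) := by
  choose L hL using h1
  have := Fintype.ofFinite I
  refine ⟨(Finset.univ : Finset I).toList.flatMap L, fun H _ h => ?_⟩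
  constructor
  · intro hh i
    rw [← hL i]
    intro w hw
    exact hh w (List.mem_flatMap.2 ⟨i, by simp, hw⟩)
  · intro hh w hw
    obtain ⟨i, -, hi⟩ := List.mem_flatMap.1 hw
    exact (hL i H h).2 (hh i) w hi

end FP

/-- The finitely many relations. -/
def Fin1 {P ι J : Type} [Fintype J] [DecidableEq J] (D : Rules P ι J) (B : P) (e : J) (H : Type)
    [Group H] (x : J → H) (t : P → H) (r : ι → H) (z u v τ c : H) : Prop :=
  (∀ j k, x j * x k = x k * x j) ∧
  (∀ i, ∀ d : Fin (D.dim i), r i * pw x (D.μ i (Pi.single d 1)) =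
    pw x (D.ν i (Pi.single d 1)) * r i) ∧
  (∀ i, r i * ((pw x (D.a i))⁻¹ * t (D.src i) * pw x (D.a i)) =
    ((pw x (D.b i))⁻¹ * t (D.tgt i) * pw x (D.b i)) * r i) ∧
  (∀ j, z * x j = x j * z) ∧ (∀ i, z * r i = r i * z) ∧
  (∀ j, u * x j = x j * u) ∧ (∀ p, u * t p = t p * u) ∧ (∀ i, u * r i = r i * u) ∧
  (u⁻¹ * z * u = z ^ 2) ∧
  (v * (x e * u) = (x e * u) * v) ∧
  (v * ((t B)⁻¹ * z ^ 2 * t B) = ((t B)⁻¹ * z ^ 2 * t B) * v) ∧
  (∀ j, τ * (v * x j * v⁻¹) = (v * x j * v⁻¹) * τ) ∧
  (∀ p, τ * (v * t p * v⁻¹) = (v * t p * v⁻¹) * τ) ∧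
  (∀ i, τ * (v * r i * v⁻¹) = (v * r i * v⁻¹) * τ) ∧
  (τ * (v * z * v⁻¹) = (v * z * v⁻¹) * τ) ∧
  (∀ i, τ * r i = r i * τ) ∧
  (c ^ 5 = 1) ∧ (c * z = z * c)

theorem fp_Fin1 {P ι J : Type} [Fintype P] [Fintype ι] [Fintype J] [DecidableEq J]
    (D : Rules P ι J) (B : P) (e : J) :
    FP (A := Gen P ι J) (fun (H : Type) [Group H] (h : Gen P ι J → H) =>
      Fin1 D B e H (fun j => h (Sum.inl j)) (fun p => h (Sum.inr (Sum.inl p)))
          (fun i => h (Sum.inr (Sum.inr (Sum.inl i)))) (h (Sum.inr (Sum.inr (Sum.inr 0))))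
          (h (Sum.inr (Sum.inr (Sum.inr 1)))) (h (Sum.inr (Sum.inr (Sum.inr 2))))
          (h (Sum.inr (Sum.inr (Sum.inr 3)))) (h (Sum.inr (Sum.inr (Sum.inr 4))))) := by
  have V : ∀ a : Gen P ι J, Wd (fun (H : Type) [Group H] (h : Gen P ι J → H) => h a) := Wd.var
  have PW : ∀ b : J → ℤ, Wd (fun (H : Type) [Group H] (h : Gen P ι J → H) =>
    pw (fun j => h (Sum.inl j)) b) := fun b => Wd.pw _ b
  unfold Fin1
  refine FP.and (FP.all fun j => FP.all fun k => FP.eq ((V _).mul (V _)) ((V _).mul (V _))) ?_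
  refine FP.and (FP.all fun i => FP.all fun d => FP.eq ((V _).mul (PW _)) ((PW _).mul (V _))) ?_
  refine FP.and (FP.all fun i => FP.eq ((V _).mul (((PW _).inv.mul (V _)).mul (PW _)))
    ((((PW _).inv.mul (V _)).mul (PW _)).mul (V _))) ?_
  refine FP.and (FP.all fun j => FP.eq ((V _).mul (V _)) ((V _).mul (V _))) ?_
  refine FP.and (FP.all fun j => FP.eq ((V _).mul (V _)) ((V _).mul (V _))) ?_
  refine FP.and (FP.all fun j => FP.eq ((V _).mul (V _)) ((V _).mul (V _))) ?_
  refine FP.and (FP.all fun j => FP.eq ((V _).mul (V _)) ((V _).mul (V _))) ?_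
  refine FP.and (FP.all fun j => FP.eq ((V _).mul (V _)) ((V _).mul (V _))) ?_
  refine FP.and (FP.eq (((V _).inv.mul (V _)).mul (V _)) ((V _).pow 2)) ?_
  refine FP.and (FP.eq ((V _).mul ((V _).mul (V _))) (((V _).mul (V _)).mul (V _))) ?_
  refine FP.and (FP.eq ((V _).mul (((V _).inv.mul ((V _).pow 2)).mul (V _)))
    ((((V _).inv.mul ((V _).pow 2)).mul (V _)).mul (V _))) ?_
  refine FP.and (FP.all fun j => FP.eq ((V _).mul (((V _).mul (V _)).mul (V _).inv))
    ((((V _).mul (V _)).mul (V _).inv).mul (V _))) ?_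
  refine FP.and (FP.all fun j => FP.eq ((V _).mul (((V _).mul (V _)).mul (V _).inv))
    ((((V _).mul (V _)).mul (V _).inv).mul (V _))) ?_
  refine FP.and (FP.all fun j => FP.eq ((V _).mul (((V _).mul (V _)).mul (V _).inv))
    ((((V _).mul (V _)).mul (V _).inv).mul (V _))) ?_
  refine FP.and (FP.eq ((V _).mul (((V _).mul (V _)).mul (V _).inv))
    ((((V _).mul (V _)).mul (V _).inv).mul (V _))) ?_
  refine FP.and (FP.all fun j => FP.eq ((V _).mul (V _)) ((V _).mul (V _))) ?_
  exact FP.and (FP.eq ((V _).pow 5) Wd.one) (FP.eq ((V _).mul (V _)) ((V _).mul (V _)))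

/-- If `g` commutes with the generators it commutes with the image. -/
theorem commute_of_gen {J : Type} [Fintype J] [DecidableEq J] {H : Type} [Group H]
    (X : Multiplicative (J → ℤ) →* H) (g : H)
    (h : ∀ j, g * X (ofAdd (Pi.single j 1)) = X (ofAdd (Pi.single j 1)) * g)
    (w : Multiplicative (J → ℤ)) : g * X w = X w * g := by
  have : (MulAut.conj g).toMonoidHom.comp X = X := by
    apply hom_ext
    intro j
    simp [MulAut.conj_apply, h j]
  have h2 := DFunLike.congr_fun this w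
  simp only [MonoidHom.comp_apply, MulEquiv.toMonoidHom_eq_coe, MonoidHom.coe_coe,
    MulAut.conj_apply] at h2
  rw [← mul_inv_eq_iff_eq_mul]
  exact h2

theorem iff_Fin1 {P ι J : Type} [Fintype J] [DecidableEq J]
    (D : Rules P ι J) (B : P) (e : J) (H : Type) [Group H] (x : J → H) (t : P → H) (r : ι → H)
    (z u v τ c : H) : Fin1 D B e H x t r z u v τ c ↔
      ∃ X : Multiplicative (J → ℤ) →* H, (∀ j, X (ofAdd (Pi.single j 1)) = x j) ∧
        GenRel D B e H X t r z u v τ c := by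
  constructor
  · rintro ⟨h1, h2, h3, h4, h5, h6, h7, h8, h9, h10, h11, h12, h13, h14, h15, h16, h17, h18⟩
    obtain ⟨X, hX⟩ := exists_hom x h1
    have hp : ∀ b, X (ofAdd b) = pw x b := by
      intro b
      rw [hom_eq_pw X b]
      simp only [hX]
    refine ⟨X, hX, ?_⟩
    refine ⟨⟨?_, ?_⟩, ?_, h5, ?_, h7, h8, h9, ?_, h11, ?_, h13, h14, h15, h16, h17, h18⟩
    · intro i w
      have : (MulAut.conj (r i)).toMonoidHom.comp
          (X.comp (AddMonoidHom.toMultiplicative (D.μ i))) =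
          X.comp (AddMonoidHom.toMultiplicative (D.ν i)) := by
        apply hom_ext
        intro d
        simp only [MonoidHom.comp_apply, MulEquiv.toMonoidHom_eq_coe, MonoidHom.coe_coe,
          MulAut.conj_apply, AddMonoidHom.toMultiplicative_apply_apply, toAdd_ofAdd]
        rw [hp, hp, h2 i d, mul_inv_cancel_right]
      have h2 := DFunLike.congr_fun this (ofAdd w)
      simp only [MonoidHom.comp_apply, MulEquiv.toMonoidHom_eq_coe, MonoidHom.coe_coe,
          MulAut.conj_apply, AddMonoidHom.toMultiplicative_apply_apply, toAdd_ofAdd] at h2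
      rw [← mul_inv_eq_iff_eq_mul]
      exact h2
    · intro i
      unfold T
      rw [hp, hp]
      exact h3 i
    · intro w
      exact commute_of_gen X z (fun j => by rw [hX]; exact h4 j) w
    · intro w
      exact commute_of_gen X u (fun j => by rw [hX]; exact h6 j) w
    · show _ * _ = _ * _
      rw [hX]
      exact h10
    · intro w
      have hc : ∀ j, (v⁻¹ * τ * v) * X (ofAdd (Pi.single j 1)) =
          X (ofAdd (Pi.single j 1)) * (v⁻¹ * τ * v) := by
        intro j
        rw [hX]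
        have := h12 j
        calc (v⁻¹ * τ * v) * x j = v⁻¹ * (τ * (v * x j * v⁻¹)) * v := by group
          _ = v⁻¹ * ((v * x j * v⁻¹) * τ) * v := by rw [this]
          _ = _ := by group
      have h := commute_of_gen X _ hc w
      show _ * _ = _ * _
      calc τ * (v * X w * v⁻¹) = v * ((v⁻¹ * τ * v) * X w) * v⁻¹ := by group
        _ = v * (X w * (v⁻¹ * τ * v)) * v⁻¹ := by rw [h]
        _ = _ := by group
  · rintro ⟨X, hX, hG⟩
    have hp : ∀ b, X (ofAdd b) = pw x b := by
      intro b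
      rw [hom_eq_pw X b]
      simp only [hX]
    refine ⟨?_, ?_, ?_, ?_, hG.zr, ?_, hG.ut, hG.ur, hG.uz, ?_, hG.vt, ?_, hG.τt, hG.τr', hG.τz,
      hG.τr, hG.c5, hG.cz⟩
    · intro j k
      rw [← hX j, ← hX k, ← X.map_mul, ← X.map_mul]
      exact congrArg X (mul_comm (G := Multiplicative (J → ℤ)) _ _)
    · intro i d
      rw [← hp, ← hp]
      exact hG.rel.shift i _
    · intro i
      have := hG.rel.rule i
      unfold T at this
      rw [hp, hp] at this
      exact this
    · intro j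
      rw [← hX j]
      exact hG.zx _
    · intro j
      rw [← hX j]
      exact hG.ux _
    · rw [← hX e]
      exact hG.vx
    · intro j
      rw [← hX j]
      exact hG.τx _

/-- The job. -/
theorem t : StmPres := by
  intro P ι J _ _ _ _ D B e
  obtain ⟨L, hL⟩ := fp_Fin1 D B e
  refine ⟨L, fun H _ h => ?_⟩
  rw [hL H h]
  exact iff_Fin1 D B e H _ _ _ _ _ _ _ _

end Pool.Agent.Y614.ISO.Pres
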